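import Pool.Agent.W406.PX.Stmts

/-!
# Bounds of the contributions of the cells
-/

set_option autoImplicit false
set_option maxHeartbeats 400000

open Finset MeasureTheory

namespace Pool.Agent.W978.PX

open Pool.Agent.W406.PX
open Pool.Agent.H96R3.BC (vv cf NN TaskLagA)
open Pool.Agent.H394R3.BC (Ker Ker_taylor_gen Ker_taylor Ker_cont Ker_cont_left Ker_cont_right
  Ker_le_pow fac_pos one_le_fac)

lemma vv_mono {Q j' : ℕ} (hQ : 1 ≤ Q) {a b : ℕ} (h : a ≤ b) : vv Q j' a ≤ vv Q j' b := by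
  unfold vv
  apply Real.rpow_le_rpow (by positivity) _ (by positivity)
  have : (a : ℝ) ≤ b := by exact_mod_cast h
  gcongr

/-- Taylor polynomial of the kernel -/
noncomputable def TP (k m : ℕ) (a v : ℝ) : Polynomial ℝ :=
  ∑ i ∈ range m, Polynomial.C ((-1) ^ i * Ker (k + i) a v / (i.factorial : ℝ)) *
    (Polynomial.X - Polynomial.C a) ^ i

lemma TP_eval (k m : ℕ) (a v w : ℝ) : (TP k m a v).eval w =
    ∑ i ∈ range m, (w - a) ^ i / (i.factorial : ℝ) * ((-1) ^ i * Ker (k + i) a v) := by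
  unfold TP
  rw [Polynomial.eval_finsetSum]
  refine Finset.sum_congr rfl fun i _ => ?_
  simp only [Polynomial.eval_mul, Polynomial.eval_C, Polynomial.eval_pow, Polynomial.eval_sub,
    Polynomial.eval_X]
  ring

lemma TP_deg (k m : ℕ) (hm : 1 ≤ m) (a v : ℝ) : (TP k m a v).natDegree < m := by
  have h : (TP k m a v).natDegree ≤ m - 1 := by
    unfold TP
    apply Polynomial.natDegree_sum_le_of_forall_le
    intro i hi
    refine (Polynomial.natDegree_C_mul_le _ _).trans ?_
    rw [Polynomial.natDegree_pow, Polynomial.natDegree_X_sub_C, mul_one]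
    have := Finset.mem_range.1 hi
    omega
  omega

section

variable {Q j' : ℕ} {B : ℕ → ℕ} {w : ℕ → ℝ → ℝ} {ε : ℝ} {ω : ℕ → ℝ}

lemma be_mono (h : Sys Q j' B w ε ω) (i : ℕ) : be Q j' B i ≤ be Q j' B (i + 1) :=
  vv_mono (by have := h.hQ; omega) (h.mono (Nat.lt_succ_self i)).le

lemma be_pos (h : Sys Q j' B w ε ω) (i : ℕ) : 0 < be Q j' B i := by
  unfold be vv
  have hj := h.hj
  have h1 : 0 < B i := by
    have h2 : B 0 ≤ B i := h.mono.monotone (Nat.zero_le i)
    have h3 := h.low
    have h4 : 0 < j' ^ (2 * Q) := by positivity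
    omega
  have h5 : (0 : ℝ) < B i := by exact_mod_cast h1
  have h6 : (0 : ℝ) < j' := by exact_mod_cast (by omega : 0 < j')
  positivity

lemma vv_mem (h : Sys Q j' B w ε ω) {i n : ℕ} (hn : n ∈ Ioc (B i) (B (i + 1))) :
    vv Q j' n ∈ Set.Icc (be Q j' B i) (be Q j' B (i + 1)) := by
  have hQ := h.hQ
  rw [Finset.mem_Ioc] at hn
  exact ⟨vv_mono (by omega) hn.1.le, vv_mono (by omega) hn.2⟩

lemma cZ_bound (h : Sys Q j' B w ε ω) {a : ℕ → ℝ} {f g P : ℝ → ℝ} (hf : Continuous f)
    (hg : Continuous g) (hP : Continuous P) {i : ℕ} (h0 : cZ Q j' B a f i P = 0) {G M : ℝ}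
    (hG : ∀ u ∈ Set.Icc (be Q j' B i) (be Q j' B (i + 1)), |g u - P u| ≤ G)
    (hM : ∑ n ∈ Ioc (B i) (B (i + 1)), |a n| * (vv Q j' n) ^ 2 + |Zf Q j' B f i|
      + |Zf Q j' B f (i + 1)| + ∫ u in (be Q j' B i)..(be Q j' B (i + 1)), |f u| ≤ M) :
    |cZ Q j' B a f i g| ≤ G * M := by
  have hab := be_mono h i
  have hG0 : 0 ≤ G := (abs_nonneg _).trans (hG _ (Set.left_mem_Icc.2 hab))
  have e : cZ Q j' B a f i g =
      ∑ n ∈ Ioc (B i) (B (i + 1)), a n * (vv Q j' n) ^ 2 * (g (vv Q j' n) - P (vv Q j' n))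
        - Zf Q j' B f i * (g (be Q j' B i) - P (be Q j' B i))
        + Zf Q j' B f (i + 1) * (g (be Q j' B (i + 1)) - P (be Q j' B (i + 1)))
        - ∫ u in (be Q j' B i)..(be Q j' B (i + 1)), f u * (g u - P u) := by
    rw [← sub_zero (cZ Q j' B a f i g), ← h0]
    unfold cZ
    have e1 : ∀ n, a n * (vv Q j' n) ^ 2 * (g (vv Q j' n) - P (vv Q j' n)) =
        a n * (vv Q j' n) ^ 2 * g (vv Q j' n) - a n * (vv Q j' n) ^ 2 * P (vv Q j' n) :=
      fun n => by ring
    have e2 : ∀ u, f u * (g u - P u) = f u * g u - f u * P u := fun u => by ring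
    simp_rw [e1, e2]
    rw [Finset.sum_sub_distrib, intervalIntegral.integral_sub]
    · ring
    · exact (hf.mul hg).intervalIntegrable _ _
    · exact (hf.mul hP).intervalIntegrable _ _
  rw [e]
  have h1 : |∑ n ∈ Ioc (B i) (B (i + 1)), a n * (vv Q j' n) ^ 2 * (g (vv Q j' n) - P (vv Q j' n))|
      ≤ G * ∑ n ∈ Ioc (B i) (B (i + 1)), |a n| * (vv Q j' n) ^ 2 := by
    refine (Finset.abs_sum_le_sum_abs _ _).trans ?_
    rw [Finset.mul_sum]
    apply Finset.sum_le_sum
    intro n hn
    rw [abs_mul, abs_mul, abs_of_nonneg (sq_nonneg (vv Q j' n)), mul_comm]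
    exact mul_le_mul_of_nonneg_right (hG _ (vv_mem h hn)) (by positivity)
  have h2 : |Zf Q j' B f i * (g (be Q j' B i) - P (be Q j' B i))| ≤ G * |Zf Q j' B f i| := by
    rw [abs_mul, mul_comm]
    exact mul_le_mul_of_nonneg_right (hG _ (Set.left_mem_Icc.2 hab)) (abs_nonneg _)
  have h3 : |Zf Q j' B f (i + 1) * (g (be Q j' B (i + 1)) - P (be Q j' B (i + 1)))|
      ≤ G * |Zf Q j' B f (i + 1)| := by
    rw [abs_mul, mul_comm]
    exact mul_le_mul_of_nonneg_right (hG _ (Set.right_mem_Icc.2 hab)) (abs_nonneg _)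
  have h4 : |∫ u in (be Q j' B i)..(be Q j' B (i + 1)), f u * (g u - P u)|
      ≤ G * ∫ u in (be Q j' B i)..(be Q j' B (i + 1)), |f u| := by
    rw [← intervalIntegral.integral_const_mul]
    refine (intervalIntegral.abs_integral_le_integral_abs hab).trans ?_
    apply intervalIntegral.integral_mono_on hab
    · exact (hf.mul (hg.sub hP)).abs.intervalIntegrable _ _
    · exact (hf.abs.const_mul G).intervalIntegrable _ _
    · intro u hu
      rw [abs_mul, mul_comm]
      exact mul_le_mul_of_nonneg_right (hG u hu) (abs_nonneg _)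
  have h5 : ∀ x y z t : ℝ, |x - y + z - t| ≤ |x| + |y| + |z| + |t| := by
    intro x y z t
    have a1 := abs_sub (x - y + z) t
    have a2 := abs_add_le (x - y) z
    have a3 := abs_sub x y
    linarith
  refine (h5 _ _ _ _).trans ((add_le_add (add_le_add (add_le_add h1 h2) h3) h4).trans ?_)
  rw [← mul_add, ← mul_add, ← mul_add]
  exact mul_le_mul_of_nonneg_left hM hG0

end

/-- TASK BLZ -/
theorem task : Pool.Agent.W406.PX.TaskBlz := by
  intro hMom hMss Q j' B w ε ω hS D c f hB i
  have hQ := hS.hQ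
  have hf : Continuous f := hB.2.1
  have hM := (hMss Q j' B w ε ω hS D c f hB i).2.2
  have hpos := be_pos hS i
  have hab := be_mono hS i
  refine ⟨fun v hv => ?_, fun v hv => ?_, ?_⟩
  · have h0 := hMom Q j' B w ε ω hS c f hf i (TP (4 * Q + 3) (4 * Q + 4) (be Q j' B i) v)
      (TP_deg _ _ (by omega) _ _)
    have h1 := cZ_bound hS (g := fun u => Ker (4 * Q + 3) u v)
      (P := fun u => (TP (4 * Q + 3) (4 * Q + 4) (be Q j' B i) v).eval u) hf (Ker_cont_left _ v)
      (Polynomial.continuous _) h0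
      (G := (be Q j' B (i + 1) - be Q j' B i) ^ (4 * Q + 4) * v ^ (8 * Q + 7)) (fun u hu => by
        rw [TP_eval]
        have h3 := Ker_taylor_gen (4 * Q + 3) (4 * Q + 4) (be Q j' B i) u v
          (v ^ (4 * Q + 3 + (4 * Q + 4))) (fun s hs => by
            rw [Set.uIcc_of_le hu.1] at hs
            exact (Ker_le_pow (4 * Q + 3 + (4 * Q + 4)) (hpos.le.trans hs.1) hv).trans
              (div_le_self (pow_nonneg hv _) (one_le_fac _)))
        refine h3.trans ?_
        have e : 4 * Q + 3 + (4 * Q + 4) = 8 * Q + 7 := by ring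
        rw [abs_of_nonneg (by linarith [hu.1] : 0 ≤ u - be Q j' B i), e]
        have h4 : (u - be Q j' B i) ^ (4 * Q + 4) ≤ (be Q j' B (i + 1) - be Q j' B i) ^ (4 * Q + 4) :=
          pow_le_pow_left₀ (by linarith [hu.1]) (by linarith [hu.2]) _
        have h7 := one_le_fac (4 * Q + 4)
        have h8 : 0 ≤ (u - be Q j' B i) ^ (4 * Q + 4) := pow_nonneg (by linarith [hu.1]) _
        exact mul_le_mul_of_nonneg_right ((div_le_self h8 h7).trans h4) (pow_nonneg hv _)) hM
    refine h1.trans (le_of_eq ?_)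
    unfold qA
    ring
  · have h0 := hMom Q j' B w ε ω hS c f hf i (TP (4 * Q + 3) (2 * Q + 1) (be Q j' B i) v)
      ((TP_deg _ _ (by omega) _ _).trans (by omega))
    have h1 := cZ_bound hS (g := fun u => Ker (4 * Q + 3) u v)
      (P := fun u => (TP (4 * Q + 3) (2 * Q + 1) (be Q j' B i) v).eval u) hf (Ker_cont_left _ v)
      (Polynomial.continuous _) h0
      (G := (be Q j' B (i + 1) - be Q j' B i) ^ (2 * Q + 1) * (v / be Q j' B i) ^ (3 * Q + 2))
      (fun u hu => by
        rw [TP_eval]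
        have h3 := Ker_taylor (4 * Q + 3) (2 * Q + 1) hpos le_rfl hu.1 hv
        refine h3.trans ?_
        have e1 : (v / be Q j' B i) ^ (((4 * Q + 3 + (2 * Q + 1) : ℕ) : ℝ) / 2)
            = (v / be Q j' B i) ^ (3 * Q + 2) := by
          rw [← Real.rpow_natCast]
          congr 1
          push_cast
          ring
        rw [e1, abs_of_nonneg (by linarith [hu.1] : 0 ≤ u - be Q j' B i)]
        have h4 : (u - be Q j' B i) ^ (2 * Q + 1) ≤ (be Q j' B (i + 1) - be Q j' B i) ^ (2 * Q + 1) :=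
          pow_le_pow_left₀ (by linarith [hu.1]) (by linarith [hu.2]) _
        have h7 := one_le_fac (2 * Q + 1)
        have h8 : 0 ≤ (u - be Q j' B i) ^ (2 * Q + 1) := pow_nonneg (by linarith [hu.1]) _
        exact mul_le_mul_of_nonneg_right ((div_le_self h8 h7).trans h4)
          (pow_nonneg (div_nonneg hv hpos.le) _)) hM
    refine h1.trans (le_of_eq ?_)
    unfold qB
    rw [div_pow]
    ring
  · unfold BL cZ
    have hint : Continuous fun v : ℝ => ∫ u in (be Q j' B i)..(be Q j' B (i + 1)),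
        f u * Ker (4 * Q + 3) u v := by
      apply intervalIntegral.continuous_parametric_intervalIntegral_of_continuous'
      have h2 : Continuous (fun p : ℝ × ℝ => Ker (4 * Q + 3) p.2 p.1) :=
        (Ker_cont (4 * Q + 3)).comp continuous_swap
      exact (hf.comp continuous_snd).mul h2
    refine ((Continuous.sub ?_ ?_).add ?_).sub hint
    · exact continuous_finsetSum _ fun n _ => continuous_const.mul (Ker_cont_right _ _)
    · exact continuous_const.mul (Ker_cont_right _ _)
    · exact continuous_const.mul (Ker_cont_right _ _)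

end Pool.Agent.W978.PX
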